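import Pool.Agent.Helper69.BQ.Cert

set_option linter.style.longLine false

/-! Certificate for the module `I1`. -/

namespace Pool.Agent.Helper69.BQ.Data

def cI1 : Cert where
P12 := [23, 37, 3511]
P13 := [11, 1213, 1901]
P23 := [47, 149, 193]
chi := [761, 1222, 1601, 1555, 798, 1038, 1141, 1142, 952]
k1 := [761, 1230, 1601, 1555, 862, 1038, 256, 512, 1024]
k2 := [761, 1230, 1617, 32, 64, 128, 1141, 1142, 952]
k3 := [4, 8, 16, 1555, 862, 1038, 1141, 1142, 952]
kp := [(4, 4), (761, 761), (8, 8), (1222, 1222), (16, 16), (1617, 1601), (0, 32), (0, 1555), (0,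
    64), (0, 798), (0, 128), (0, 1038), (256, 0), (1141, 0), (512, 0), (1142, 0), (1024, 0), (952,
    0)]
r1 := 208
r2 := 774
r3 := 1666
F1 := (4, 20)
F2 := (8, 10)
F3 := (32, 34)
K1 := [508, 0, 220, 0, 11, 496, 466, 64, 128, 256]
K2 := [0, 31, 0, 170, 8, 16, 32, 465, 83, 45]
K3 := [0, 1, 2, 4, 0, 166, 439, 94, 239, 35]
m := 2
n := 1
A := [1, 0]
B := [0, 1]
psi := [1652]
L1 := [1, 0]
L2 := [0, 1]
f := [6]
c1 := [7, 0]
c2 := [774, 769]
ra := [1, 0]
rb := [16, 17]
S1 := [123]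
S2 := [211]
S3 := [111]
TA := [0]
TB := [0]
gens := [⟨⟨-20082750846, -6110, -21060, -6009⟩, ⟨-1304222432, 164, -710, 296⟩, ⟨165728831, -569,
    397, -498⟩, ⟨-623308604742890, 85276334, -315422501, 131555395⟩, ⟨29580293296362492,
    -2293417290, -8113495106, 7936428161⟩, 46, 291431716117, 11481, 322138, 704711021628,
    8064847⟩, ⟨⟨-78280351, 26, 0, 0⟩, ⟨-8915024285, 4465, -1312, 1426⟩, ⟨78280351, -26, 656,
    -713⟩, ⟨-9433679114200492, 564021979, 15665075934, 2606170820⟩, ⟨98665031327775, -3919644,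
    -96138681, -4949020⟩, 1, 78280351, -26, 1, 2537857, 0⟩]

theorem ok_cI1 : cI1.ok = true := by decide +kernel

end Pool.Agent.Helper69.BQ.Data
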