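import Pool.Agent.Helper69.BQ.Cert

set_option linter.style.longLine false

/-! Certificate for the module `I2`. -/

namespace Pool.Agent.Helper69.BQ.Data

def cI2 : Cert where
P12 := [13, 31, 101]
P13 := [73, 239, 643]
P23 := [7, 89, 6451]
chi := [1002, 1765, 802, 476, 1829, 1127, 701, 1372, 771]
k1 := [1002, 1773, 818, 508, 1893, 1127, 256, 512, 1024]
k2 := [1002, 1765, 818, 32, 64, 128, 957, 1884, 771]
k3 := [4, 8, 16, 508, 1893, 1255, 701, 1884, 771]
kp := [(4, 4), (1002, 1002), (8, 8), (1773, 1765), (16, 16), (802, 802), (0, 32), (0, 476), (0,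
    64), (0, 1829), (0, 128), (128, 1127), (256, 0), (701, 256), (512, 0), (1372, 0), (1024, 0),
    (771, 0)]
r1 := 116
r2 := 1304
r3 := 1696
F1 := (8, 12)
F2 := (2, 10)
F3 := (2, 34)
K1 := [240, 0, 0, 121, 77, 46, 82, 64, 128, 256]
K2 := [0, 349, 0, 53, 8, 16, 32, 422, 415, 449]
K3 := [0, 1, 2, 4, 0, 328, 422, 225, 375, 89]
m := 3
n := 2
A := [1, 2, 0]
B := [0, 1, 2]
psi := [184, 1860]
L1 := [1, 0, 0]
L2 := [0, 1, 2]
f := [34, 46]
c1 := [35, 47, 0]
c2 := [0, 1036, 1025]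
ra := [1, 1, 0]
rb := [0, 62, 63]
S1 := [102, 494]
S2 := [29, 181]
S3 := [416, 134]
TA := [0, 50260]
TB := [0, 0]
gens := [⟨⟨16792072332, -428, 499248, 417⟩, ⟨61508, 0, 6, 0⟩, ⟨3444863, 1465, -5, 8⟩,
    ⟨227223081674, 7565566, 119397, -224557⟩, ⟨-21973611659891136, -624143329321, -7529138178,
    15019896682⟩, 146, 3445941313325, 35769, 1, 16794497049, 499444⟩, ⟨⟨-532683279, -789, 2588,
    -79⟩, ⟨-285739568, -1496, 2346, 32⟩, ⟨-864423107, -579, -319, 274⟩, ⟨-574117324006855,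
    -938757703, 769479657, 143365837⟩, ⟨237769892417488, 996874606, -218616328, -155455707⟩, 4526,
    18870159017, -22683, 199981, 112167543071, -234129⟩, ⟨⟨1350371, -2, 0, 0⟩, ⟨5680714702,
    -15686, -2064, -388⟩, ⟨-2871751, 1, -195, 22⟩, ⟨-277552533603217, -3401237926, -22515528040,
    1603919220⟩, ⟨-224264249650, 331608, 3096651, -351620⟩, 1, 1350371, -2, 1, 681, 0⟩]

theorem ok_cI2 : cI2.ok = true := by decide +kernel

end Pool.Agent.Helper69.BQ.Data
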