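import Pool.Agent.Helper69.BQ.Cert

set_option linter.style.longLine false

/-! Certificate for the module `I3`. -/

namespace Pool.Agent.Helper69.BQ.Data

def cI3 : Cert where
P12 := [109, 181, 281, 347]
P13 := [191, 383, 1229, 3593]
P23 := [11, 337, 467, 52957]
chi := [11658, 12486, 14208, 2883, 3849, 3453, 7926, 11632, 2871, 6116, 3579, 542]
k1 := [11662, 12494, 14224, 2883, 3849, 3581, 7926, 11632, 1024, 2048, 4096, 8192]
k2 := [11662, 12486, 14224, 2915, 64, 128, 256, 512, 2871, 6116, 7675, 542]
k3 := [4, 8, 16, 32, 3913, 3581, 8182, 12144, 3895, 6116, 7675, 542]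
kp := [(4, 4), (11658, 11658), (8, 8), (12494, 12486), (16, 16), (14208, 14208), (32, 32), (2915,
    2883), (0, 64), (64, 3849), (0, 128), (0, 3453), (0, 256), (256, 7926), (0, 512), (512,
    11632), (1024, 0), (2871, 1024), (2048, 0), (6116, 0), (4096, 0), (3579, 0), (8192, 0), (542,
    0)]
r1 := 840
r2 := 6164
r3 := 15042
F1 := (4, 12)
F2 := (2, 6)
F3 := (256, 258)
K1 := [1904, 0, 0, 1716, 2615, 1640, 3354, 363, 1985, 256, 512, 1024, 2048]
K2 := [0, 0, 2456, 280, 3800, 16, 32, 64, 128, 462, 1507, 3558, 3540]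
K3 := [0, 1, 2, 4, 8, 287, 2106, 0, 2055, 1802, 580, 1057, 3290]
m := 4
n := 3
A := [1, 2, 4, 0]
B := [0, 1, 2, 4]
psi := [10798, 1288, 16128]
L1 := [1, 0, 0, 0]
L2 := [0, 1, 2, 4]
f := [32, 10, 318]
c1 := [872, 10, 630, 0]
c2 := [9259, 9226, 15413, 14337]
ra := [8, 0, 8, 0]
rb := [21, 20, 5, 35]
S1 := [134, 107, 2474]
S2 := [4087, 2070, 1247]
S3 := [1682, 1800, 1458]
TA := [0, 4799077, 2095344]
TB := [0, 0, 0]
gens := [⟨⟨-6737925667056155, 273572, -366177, 52960⟩, ⟨662586307741720, 88402, 33790, -2740⟩,
    ⟨-878463463887829, 17415, -82084, 9978⟩, ⟨27169819540725769534259229, -597932776030024,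
    -4211071221080591, -202421504289390⟩, ⟨150925769626212200242455406, -5982815292528441,
    9501607097187028, -1341861477286907⟩, 52972505776189, 16188644617080275440740, -634796934695,
    73173546578, 250609440671034864430, 14957598955⟩, ⟨⟨5019044737026990, 16000, -18962, 33847⟩,
    ⟨8018066919727674, 180788, 300205, 23748⟩, ⟨-2014726794893975, -159246, -208593, -32909⟩,
    ⟨266619566404918275990245102, 17059921378828086, 17445791279720880, 4504846389116485⟩,
    ⟨-233146061282992893262888292, -3455960932467664, -4908686641346011, -2344343748119361⟩, 362,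
    14725078497597143, 2129709, 210874774, 9647318452792604210, -2135558881⟩, ⟨⟨879564901578401,
    319635, 17083, 64833⟩, ⟨5133913434650704, 254092, -204723, -40286⟩, ⟨1969701697725602, 34613,
    134310, 8225⟩, ⟨-213899179856181141616180763, -7324558835354475, 11777537714005876,
    1630768141080231⟩, ⟨-116558108046236140201699922, -1118513042272702, -6256414016138218,
    -214348666951568⟩, 14587567302338, 3927272812065832483041, -48554462069, 974372759025224779,
    7745227676007693179109923, 415591174298444⟩, ⟨⟨-52577025000151, -4604, 0, 0⟩,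
    ⟨-13426235226009191, -845345, -78386, -25342⟩, ⟨52577025000151, 4604, 39193, 12671⟩,
    ⟨-83629912284210972695578292, -1684166246915975, 17574037674838682, 2625919334523720⟩,
    ⟨743931351671420188057497, 13671351403142, -94338569868835, -12584944657316⟩, 1,
    52577025000151, 4604, 1, 1117485867, 0⟩]

theorem ok_cI3 : cI3.ok = true := by decide +kernel

end Pool.Agent.Helper69.BQ.Data
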