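import Pool.Agent.Helper69.BQ.Cert

set_option linter.style.longLine false

/-! Certificate for the module `N1`. -/

namespace Pool.Agent.Helper69.BQ.Data

def cN1 : Cert where
P12 := [17, 19, 89]
P13 := [61, 1297, 2237]
P23 := [5, 31, 127]
chi := [992, 1683, 1768, 534, 1940, 1374, 1222, 1141, 465]
k1 := [996, 1691, 1768, 534, 2004, 1374, 256, 512, 1024]
k2 := [992, 1691, 1784, 32, 64, 128, 1478, 1141, 1489]
k3 := [4, 8, 16, 534, 1940, 1374, 1222, 1141, 465]
kp := [(4, 4), (996, 992), (8, 8), (1683, 1683), (16, 16), (1784, 1768), (0, 32), (0, 534), (0,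
    64), (64, 1940), (0, 128), (0, 1374), (256, 0), (1222, 256), (512, 0), (1141, 0), (1024, 0),
    (465, 1024)]
r1 := 78
r2 := 1034
r3 := 448
F1 := (16, 2)
F2 := (4, 6)
F3 := (2, 66)
K1 := [0, 136, 461, 0, 273, 37, 381, 64, 128, 256]
K2 := [0, 0, 299, 350, 8, 16, 32, 424, 401, 472]
K3 := [0, 1, 2, 4, 409, 0, 63, 89, 13, 126]
m := 1
n := 1
A := [1]
B := [0]
psi := [1974]
L1 := [1]
L2 := [0]
f := [16]
c1 := [95]
c2 := [1823]
ra := [9]
rb := [5]
S1 := [292]
S2 := [151]
S3 := [393]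
TA := [0]
TB := [186293]
gens := [⟨⟨216547118, -96, 7567, -191⟩, ⟨-375586204, 112, 9608, -374⟩, ⟨180744380, -82, 561, -22⟩,
    ⟨478288696045164, -234746894, -18815294688, 375138845⟩, ⟨120183521894134, -53430162,
    5201897765, -130343035⟩, 74569718, 1111498931649, -489959, 1131769390, 560225848050, 9422633⟩]

theorem ok_cN1 : cN1.ok = true := by decide +kernel

end Pool.Agent.Helper69.BQ.Data
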