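import Pool.Agent.Helper69.BQ.Cert

set_option linter.style.longLine false

/-! Certificate for the module `N2`. -/

namespace Pool.Agent.Helper69.BQ.Data

def cN2 : Cert where
P12 := [73, 89, 577]
P13 := [43, 449, 509]
P23 := [3, 1381, 5003]
chi := [1136, 1840, 1580, 863, 932, 1858, 1227, 1274, 703]
k1 := [1140, 1840, 1596, 895, 996, 1986, 256, 512, 1024]
k2 := [1136, 1840, 1580, 32, 64, 128, 1227, 1274, 703]
k3 := [4, 8, 16, 895, 932, 1986, 1483, 1786, 1727]
kp := [(4, 4), (1140, 1136), (8, 8), (1840, 1840), (16, 16), (1596, 1580), (0, 32), (0, 863), (0,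
    64), (64, 932), (0, 128), (0, 1858), (256, 0), (1227, 256), (512, 0), (1274, 512), (1024, 0),
    (703, 1024)]
r1 := 78
r2 := 1050
r3 := 706
F1 := (16, 2)
F2 := (4, 6)
F3 := (32, 34)
K1 := [0, 242, 180, 0, 450, 49, 465, 64, 128, 256]
K2 := [0, 0, 161, 501, 8, 16, 32, 338, 321, 492]
K3 := [0, 1, 2, 4, 0, 203, 415, 166, 296, 250]
m := 2
n := 2
A := [1, 2]
B := [2, 0]
psi := [1986, 1256]
L1 := [0, 2]
L2 := [2, 0]
f := [46, 48]
c1 := [210, 130]
c2 := [1296, 0]
ra := [2, 10]
rb := [38, 0]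
S1 := [32, 406]
S2 := [463, 373]
S3 := [32, 428]
TA := [103713, 0]
TB := [3072, 0]
gens := [⟨⟨-24614565428, 192, -1917, 87⟩, ⟨-7033459464, 254, 517, -538⟩, ⟨-3428631856, -853, -379,
    -345⟩, ⟨5846017452622325, -1667969221, -1229164407, 199309899⟩, ⟨50877611211784382,
    -681128905, 4511098340, -434406015⟩, 263736314, 17165673601161, -20703827, 8660193,
    68715331921467, 5801578⟩, ⟨⟨930277029732, 3400, -41337, -4237⟩, ⟨79320796, 0, 2, 0⟩, ⟨5730827,
    1261, 49, -128⟩, ⟨148064145463400, -20472024, 25102108, 25369877⟩, ⟨3452718261532276168,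
    849236026258, -186622887937, -546404668103⟩, 1018, 24099616231827, -27601, 1, 929278972801,
    -43426⟩]

theorem ok_cN2 : cN2.ok = true := by decide +kernel

end Pool.Agent.Helper69.BQ.Data
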