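import Pool.Agent.Helper69.BQ.Cert

set_option linter.style.longLine false

/-! Certificate for the module `N3`. -/

namespace Pool.Agent.Helper69.BQ.Data

def cN3 : Cert where
P12 := [19, 83, 173]
P13 := [11, 23, 89, 167]
P23 := [701, 2143, 7069]
chi := [1427, 2183, 38, 2847, 685, 3148, 3145, 3170, 2793, 1962]
k1 := [1427, 2191, 38, 2879, 749, 3276, 3401, 512, 1024, 2048]
k2 := [1427, 2183, 38, 32, 64, 128, 256, 3682, 2793, 1962]
k3 := [4, 8, 16, 2879, 685, 3276, 3145, 3682, 2793, 1962]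
kp := [(4, 4), (1427, 1427), (8, 8), (2191, 2183), (16, 16), (38, 38), (0, 32), (0, 2847), (0,
    64), (64, 685), (0, 128), (0, 3148), (0, 256), (256, 3145), (512, 0), (3170, 0), (1024, 0),
    (2793, 0), (2048, 0), (1962, 0)]
r1 := 116
r2 := 2584
r3 := 3522
F1 := (8, 12)
F2 := (2, 10)
F3 := (32, 34)
K1 := [571, 0, 0, 858, 575, 662, 438, 89, 128, 256, 512]
K2 := [0, 12, 0, 449, 8, 16, 32, 64, 278, 894, 752]
K3 := [0, 1, 2, 4, 0, 670, 209, 834, 114, 483, 911]
m := 3
n := 3
A := [1, 2, 4]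
B := [2, 4, 0]
psi := [2512, 1770, 1242]
L1 := [0, 0, 4]
L2 := [2, 4, 0]
f := [136, 46, 34]
c1 := [136, 422, 35]
c2 := [1544, 1540, 0]
ra := [0, 10, 1]
rb := [50, 50, 0]
S1 := [547, 676, 833]
S2 := [833, 592, 655]
S3 := [646, 988, 938]
TA := [912843, 852959, 0]
TB := [361377, 0, 0]
gens := [⟨⟨82121990644, -25371, -573, 330⟩, ⟨151283475719, 145239, -1414, -1036⟩, ⟨-38653329425,
    -47904, 160, 313⟩, ⟨-656424048693004190, -616995434223, 7844326728, 3945034380⟩,
    ⟨1733868584867517774, -1791788178322, -42202421617, 16463906715⟩, 7387, 5543537776412,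
    -871119, 124686169, 746082011035751, -2968773⟩, ⟨⟨36766917462, -4244, 27, 87⟩, ⟨106354388922,
    34240, -1119, -288⟩, ⟨-1232958580, 25721, 235, -319⟩, ⟨-1844698563485834561, -3722132754635,
    7021547539, 29284734069⟩, ⟨-482594285388697900, -239046366057, 5495927843, -9760731735⟩,
    6212734, 16489997007517, -83328495, 28542617, 39291966360519, 2387231⟩, ⟨⟨-2482489550173,
    -20597, 85409, 107⟩, ⟨-67923084, 0, 1, 0⟩, ⟨33961542, 20597, 53, -107⟩, ⟨-2227055403920027,
    -1267929703, 22045847, 8120561⟩, ⟨190585519744961629062, 108478015213344, -806921160833,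
    -303677995831⟩, 22, 28204222560811, 35863, 1, 2482455588631, -85462⟩]

theorem ok_cN3 : cN3.ok = true := by decide +kernel

end Pool.Agent.Helper69.BQ.Data
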