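import Pool.Agent.Helper69.BQ.Cert

set_option linter.style.longLine false

/-! Certificate for the module `N4`. -/

namespace Pool.Agent.Helper69.BQ.Data

def cN4 : Cert where
P12 := [19, 83, 167, 1471]
P13 := [47, 367, 1063, 2657]
P23 := [37, 1091, 3463, 90793]
chi := [3379, 12775, 5161, 6209, 2453, 4661, 12977, 384, 14358, 5531, 9285, 5384]
k1 := [3379, 12775, 5177, 6209, 2517, 4789, 13233, 384, 1024, 2048, 4096, 8192]
k2 := [3379, 12775, 5177, 6241, 64, 128, 256, 512, 14358, 5531, 9285, 13576]
k3 := [4, 8, 16, 32, 2453, 4789, 13233, 384, 14358, 5531, 9285, 13576]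
kp := [(4, 4), (3379, 3379), (8, 8), (12775, 12775), (16, 16), (5161, 5161), (32, 32), (6241,
    6209), (0, 64), (64, 2453), (0, 128), (0, 4661), (0, 256), (0, 12977), (0, 512), (0, 384),
    (1024, 0), (14358, 0), (2048, 0), (5531, 0), (4096, 0), (9285, 0), (8192, 0), (5384, 0)]
r1 := 554
r2 := 10248
r3 := 2626
F1 := (4, 2)
F2 := (2, 10)
F3 := (128, 130)
K1 := [0, 0, 3685, 1176, 2698, 891, 2272, 2144, 1953, 256, 512, 1024, 2048]
K2 := [0, 2396, 0, 1631, 612, 16, 32, 64, 128, 307, 1904, 1845, 3654]
K3 := [0, 1, 2, 4, 8, 3570, 0, 128, 348, 1015, 2672, 2964, 225]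
m := 4
n := 4
A := [1, 2, 4, 8]
B := [2, 4, 8, 0]
psi := [6282, 3432, 1296, 14024]
L1 := [0, 0, 0, 8]
L2 := [2, 4, 8, 0]
f := [224, 32, 20, 42]
c1 := [225, 32, 21, 508]
c2 := [33, 5154, 15381, 15422]
ra := [1, 0, 1, 10]
rb := [1, 20, 5, 4]
S1 := [133, 3316, 3576, 3935]
S2 := [101, 1143, 1836, 2288]
S3 := [486, 1279, 883, 1070]
TA := [6434767, 14964773, 985550, 0]
TB := [4795229, 0, 0, 0]
gens := [⟨⟨2482740531995635, -230400, -7044, 6268⟩, ⟨-8173282522840944, -4133614, 38820, 52104⟩,
    ⟨-4161679301967569, 560371, 86318, -522⟩, ⟨7047048829355845669654106879, 677053527087908926,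
    -43657327657884090, -5026439511398752⟩, ⟨-789619800439259483261751685, -19330713940784662,
    1567440425557785, -946480496896252⟩, 25373279, 2588695434368999165, 2557900936, 1471,
    40510702237910425, -924866⟩, ⟨⟨-6511011856420906, -456441, -2520, -3172⟩, ⟨-20489759533891161,
    874426, 89406, 6588⟩, ⟨434955218772983, 736941, 11481, -18445⟩, ⟨-814475678485314958041650715,
    -438916918225528212, -10799232947684828, 7621394031550467⟩, ⟨-372108036630856367565893359,
    -23537513627980497, -3290893993550197, -2458598610097099⟩, 1471, 240322721564579917, 17178950,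
    376961402, 115674891981166762148, -27808777⟩, ⟨⟨8378842194948192, 1709855, -81663, -18900⟩,
    ⟨-13131026550580267, 1759251, 113246, -29804⟩, ⟨-343233682261178, 70019, 55025, 2253⟩,
    ⟨4184942120323945276492704133, -581817802157009418, -22938563728256064, 5960115919097178⟩,
    ⟨-2556739665259502786844615601, -501825561898215844, 16245129760002177, 3661377238657635⟩,
    167, 18707228659458724, 3537705, 2119570194088951, 38602593735747838796313, -68689311682⟩,
    ⟨⟨-849516607157, 0, 2, 0⟩, ⟨-37740422559311895600, 1627779, -18427886, 184272⟩, ⟨559631417346,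
    1290256, 400, -953⟩, ⟨41549932958845776713487714641, 18820578833203166874,
    7892635319395497262, 4347545676047513325⟩, ⟨5247823607687187941770, 3092421507558,
    -177555466617, -98234177955⟩, 7103265111363143, 0, 16025281047, 9833817980862287188834,
    19667635961724574377668, -849516607157⟩]

theorem ok_cN4 : cN4.ok = true := by decide +kernel

end Pool.Agent.Helper69.BQ.Data
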