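import Pool.Agent.Helper69.BQ.Cert

set_option linter.style.longLine false

/-! Certificate for the module `P1`. -/

namespace Pool.Agent.Helper69.BQ.Data

def cP1 : Cert where
P12 := [17, 19, 89]
P13 := [61, 1297, 2237]
P23 := [5, 31, 127]
chi := [992, 1683, 1768, 534, 1940, 1374, 1222, 1141, 465]
k1 := [996, 1691, 1768, 534, 2004, 1374, 256, 512, 1024]
k2 := [992, 1691, 1784, 32, 64, 128, 1478, 1141, 1489]
k3 := [4, 8, 16, 534, 1940, 1374, 1222, 1141, 465]
kp := [(4, 4), (996, 992), (8, 8), (1683, 1683), (16, 16), (1784, 1768), (0, 32), (0, 534), (0,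
    64), (64, 1940), (0, 128), (0, 1374), (256, 0), (1222, 256), (512, 0), (1141, 0), (1024, 0),
    (465, 1024)]
r1 := 78
r2 := 1034
r3 := 448
F1 := (16, 2)
F2 := (4, 6)
F3 := (2, 66)
K1 := [0, 136, 461, 0, 273, 37, 381, 64, 128, 256]
K2 := [0, 0, 299, 350, 8, 16, 32, 424, 401, 472]
K3 := [0, 1, 2, 4, 409, 0, 63, 89, 13, 126]
m := 0
n := 1
A := []
B := []
psi := [1890]
L1 := []
L2 := []
f := [6]
c1 := []
c2 := []
ra := []
rb := []
S1 := [244]
S2 := [505]
S3 := [435]
TA := [78709]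
TB := [70135]
gens := []

theorem ok_cP1 : cP1.ok = true := by decide +kernel

end Pool.Agent.Helper69.BQ.Data
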