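import Pool.Agent.Helper69.BQ.Cert

set_option linter.style.longLine false

/-! Certificate for the module `P2`. -/

namespace Pool.Agent.Helper69.BQ.Data

def cP2 : Cert where
P12 := [3, 59, 3169]
P13 := [19, 157, 3433]
P23 := [37, 113, 1229]
chi := [1547, 979, 872, 1951, 154, 872, 1722, 444, 294]
k1 := [1547, 979, 888, 1983, 218, 1000, 256, 512, 1024]
k2 := [1551, 987, 888, 32, 64, 128, 1978, 444, 1318]
k3 := [4, 8, 16, 1951, 154, 872, 1978, 956, 1318]
kp := [(4, 4), (1551, 1547), (8, 8), (987, 979), (16, 16), (872, 872), (0, 32), (32, 1951), (0,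
    64), (64, 154), (0, 128), (128, 872), (256, 0), (1722, 0), (512, 0), (444, 512), (1024, 0),
    (294, 0)]
r1 := 72
r2 := 1050
r3 := 288
F1 := (4, 12)
F2 := (4, 6)
F3 := (2, 34)
K1 := [339, 0, 0, 462, 109, 359, 490, 64, 128, 256]
K2 := [0, 0, 239, 315, 8, 16, 32, 380, 180, 116]
K3 := [0, 1, 2, 4, 0, 179, 22, 448, 337, 193]
m := 1
n := 2
A := [1]
B := [2]
psi := [1168, 1318]
L1 := [0]
L2 := [2]
f := [22, 12]
c1 := [234]
c2 := [776]
ra := [2]
rb := [20]
S1 := [292, 126]
S2 := [367, 256]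
S3 := [211, 256]
TA := [4939, 196608]
TB := [118890, 0]
gens := [⟨⟨-689692714, -12, 80, -87⟩, ⟨-3214895562, 408, -84, 327⟩, ⟨-90929718, 160, 193, -219⟩,
    ⟨-3460043436133669, -1969234998, 758441815, 1180808079⟩, ⟨-872827210585581, 4143064,
    -146152142, -322869468⟩, 1208395402, 4048728794401, 7340235, 246679, 70969301621, -106081⟩]

theorem ok_cP2 : cP2.ok = true := by decide +kernel

end Pool.Agent.Helper69.BQ.Data
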