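import Pool.Agent.Helper69.BQ.Cert

set_option linter.style.longLine false

/-! Certificate for the module `P3`. -/

namespace Pool.Agent.Helper69.BQ.Data

def cP3 : Cert where
P12 := [7, 19, 61, 79]
P13 := [3, 43, 311, 2543]
P23 := [109, 293, 401, 2003]
chi := [2393, 15459, 12710, 16341, 15107, 95, 2713, 4237, 8234, 12654, 2680, 3991]
k1 := [2397, 15467, 12710, 16373, 15171, 223, 2969, 4237, 1024, 2048, 4096, 8192]
k2 := [2393, 15467, 12726, 16373, 64, 128, 256, 512, 8234, 12654, 2680, 3991]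
k3 := [4, 8, 16, 32, 15171, 223, 2713, 4749, 8234, 14702, 6776, 12183]
kp := [(4, 4), (2397, 2393), (8, 8), (15459, 15459), (16, 16), (12726, 12710), (32, 32), (16341,
    16341), (0, 64), (0, 15107), (0, 128), (0, 95), (0, 256), (256, 2713), (0, 512), (512, 4237),
    (1024, 0), (8234, 0), (2048, 0), (12654, 2048), (4096, 0), (2680, 4096), (8192, 0), (3991,
    8192)]
r1 := 548
r2 := 10272
r3 := 1856
F1 := (8, 12)
F2 := (2, 34)
F3 := (2, 66)
K1 := [3642, 0, 0, 2551, 3621, 877, 2288, 1259, 3036, 256, 512, 1024, 2048]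
K2 := [0, 734, 2198, 2722, 0, 16, 32, 64, 128, 761, 1700, 398, 2454]
K3 := [0, 1, 2, 4, 8, 0, 1783, 964, 1227, 2701, 1194, 1135, 266]
m := 2
n := 3
A := [1, 2]
B := [2, 4]
psi := [1564, 14002, 4098]
L1 := [0, 0]
L2 := [2, 4]
f := [232, 20, 2230]
c1 := [232, 20]
c2 := [15402, 6164]
ra := [0, 0]
rb := [4, 54]
S1 := [811, 1988, 2618]
S2 := [659, 227, 398]
S3 := [3649, 3544, 1135]
TA := [9020368, 4149108, 7135249]
TB := [2983502, 0, 0]
gens := [⟨⟨1529445064517, 173504, -5415, -814⟩, ⟨936675719128, -15178, -1170, 0⟩, ⟨241750988581,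
    62381, -2910, -788⟩, ⟨-7611439508275207651, 406994293968, 176760433573, -4193625830⟩,
    ⟨30853119550427434644, 3240688059129, -248834684658, -38375223892⟩, 64543, 159755505821404,
    19365295, 77006986421422, 5059204993914582556, -25875779851⟩, ⟨⟨-1674652871054, 53095, -2289,
    1332⟩, ⟨-1689168615549, -95181, 4242, 372⟩, ⟨-507930761733, -115314, 7088, 239⟩,
    ⟨6221973753866665264, 3529516690745, -26840955801, -61793330010⟩, ⟨-83295479530807740140,
    5527455051128, -335538023187, 81034291842⟩, 427, 12993449438606, -1099603, 50169511,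
    3864410786849347, -11550324⟩]

theorem ok_cP3 : cP3.ok = true := by decide +kernel

end Pool.Agent.Helper69.BQ.Data
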