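import Pool.Agent.Helper69.BQ.Cert

set_option linter.style.longLine false

/-! Certificate for the module `P4`. -/

namespace Pool.Agent.Helper69.BQ.Data

def cP4 : Cert where
P12 := [71, 167, 271, 1061]
P13 := [139, 157, 199, 509]
P23 := [283, 463, 2473, 4639]
chi := [5217, 6261, 3461, 9422, 5043, 2674, 5133, 15554, 6763, 965, 1868, 3965]
k1 := [5221, 6269, 3461, 9422, 5043, 2674, 5389, 15554, 1024, 2048, 4096, 8192]
k2 := [5217, 6261, 3461, 9454, 64, 128, 256, 512, 6763, 965, 5964, 12157]
k3 := [4, 8, 16, 32, 5043, 2674, 5389, 16066, 6763, 3013, 1868, 3965]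
kp := [(4, 4), (5221, 5217), (8, 8), (6269, 6261), (16, 16), (3461, 3461), (32, 32), (9454, 9422),
    (0, 64), (0, 5043), (0, 128), (0, 2674), (0, 256), (0, 5133), (0, 512), (512, 15554), (1024,
    0), (6763, 0), (2048, 0), (965, 2048), (4096, 0), (1868, 4096), (8192, 0), (3965, 8192)]
r1 := 800
r2 := 12308
r3 := 14914
F1 := (4, 36)
F2 := (2, 6)
F3 := (128, 130)
K1 := [2680, 0, 1672, 1419, 0, 1332, 204, 1021, 2279, 256, 512, 1024, 2048]
K2 := [0, 0, 789, 663, 1316, 16, 32, 64, 128, 2587, 2191, 3550, 3090]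
K3 := [0, 1, 2, 4, 8, 3895, 0, 2923, 2641, 2574, 1354, 2144, 706]
m := 3
n := 4
A := [1, 2, 4]
B := [2, 4, 8]
psi := [960, 8696, 4110, 12834]
L1 := [0, 0, 0]
L2 := [2, 4, 8]
f := [272, 12, 46, 4120]
c1 := [460, 209, 783]
c2 := [12, 15376, 8204]
ra := [10, 11, 9]
rb := [0, 4, 16]
S1 := [3810, 3334, 2288, 3743]
S2 := [240, 2244, 3787, 1128]
S3 := [3597, 1680, 2147, 251]
TA := [1166460, 2809011, 1238044, 2728386]
TB := [21760, 0, 0, 0]
gens := [⟨⟨-1709507091206271, -429788, 4980, -36212⟩, ⟨-7769517392660477, -720144, -4242, -25704⟩,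
    ⟨-1990895490410483, -673186, 24511, -77562⟩, ⟨44321575583762612152404175, 3826366878753426,
    2608171087143474, -582349631097139⟩, ⟨-26602934667710078993325480, -11963331458988888,
    -186871037187966, -464181229563431⟩, 51492306889, 20959972921274683619, 49693940852, 11857,
    67336124436363917, 922282⟩, ⟨⟨1382052714270642, 925587, -7951, -37838⟩, ⟨-2180936306838966,
    -740073, 6935, -103254⟩, ⟨-1243109004410577, -273210, -10972, 56914⟩,
    ⟨30636402051460441387296279, 14718127773544054, -101390105452408, 551281287768430⟩,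
    ⟨3741004335696406261974679, -12094051212473819, 371019835151427, -120581348405572⟩, 5914033,
    1769993386475995378, 832314811, 407366401136173, 12989390574525906546807, 49307878671⟩,
    ⟨⟨-1589778421778802, -50844, -29717, -9447⟩, ⟨-6284053657704228, -873344, -32566, -59826⟩,
    ⟨-873517885309605, -1405735, 38962, -99552⟩, ⟨-430702338533840547908862508,
    -92086986392118772, -1160985510147624, -6121172665010945⟩, ⟨222221319274825187057385304,
    29908757188238971, 597214608536836, 787802106630158⟩, 2402014774, 17701367327672433735,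
    55397933713, 55004623, 25699648068644716949, 116050413⟩]

theorem ok_cP4 : cP4.ok = true := by decide +kernel

end Pool.Agent.Helper69.BQ.Data
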