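import Pool.Agent.Helper69.BQ.Cert

set_option linter.style.longLine false

/-! Certificate for the module `P5`. -/

namespace Pool.Agent.Helper69.BQ.Data

def cP5 : Cert where
P12 := [29, 47, 107, 157]
P13 := [23, 227, 2843, 7457]
P23 := [101, 3319, 8863, 27067]
chi := [13354, 3029, 10787, 10966, 11185, 9011, 11283, 6392, 262, 12961, 9181, 47]
k1 := [13354, 3037, 10803, 10998, 11185, 9139, 11283, 6904, 1024, 2048, 4096, 8192]
k2 := [13354, 3029, 10803, 10998, 64, 128, 256, 512, 262, 12961, 13277, 8239]
k3 := [4, 8, 16, 32, 11185, 9139, 11539, 6392, 262, 15009, 9181, 47]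
kp := [(4, 4), (13354, 13354), (8, 8), (3037, 3029), (16, 16), (10787, 10787), (32, 32), (10966,
    10966), (0, 64), (0, 11185), (0, 128), (0, 9011), (0, 256), (256, 11283), (0, 512), (512,
    6392), (1024, 0), (262, 0), (2048, 0), (12961, 2048), (4096, 0), (9181, 4096), (8192, 0), (47,
    8192)]
r1 := 400
r2 := 5134
r3 := 6594
F1 := (4, 20)
F2 := (16, 18)
F3 := (512, 514)
K1 := [560, 0, 3768, 0, 393, 1827, 3679, 3195, 205, 256, 512, 1024, 2048]
K2 := [0, 320, 2314, 0, 3610, 16, 32, 64, 128, 2775, 206, 746, 3884]
K3 := [0, 1, 2, 4, 8, 1067, 1920, 257, 0, 2008, 48, 789, 3750]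
m := 4
n := 5
A := [1, 2, 4, 8]
B := [2, 4, 8, 16]
psi := [8016, 5638, 7962, 6180, 9362]
L1 := [0, 0, 0, 0]
L2 := [2, 4, 8, 16]
f := [152, 36, 8, 86, 1050]
c1 := [152, 437, 9, 938]
c2 := [15387, 15414, 3083, 11307]
ra := [0, 9, 1, 2]
rb := [5, 4, 57, 21]
S1 := [3221, 2045, 1854, 1929, 1391]
S2 := [2083, 2557, 313, 3454, 1499]
S3 := [467, 1228, 1530, 812, 3834]
TA := [1971174, 1286912, 1541397, 4444650, 6101040]
TB := [326892, 0, 0, 0, 0]
gens := [⟨⟨2380428819317748, -2462131, 14820, -294⟩, ⟨-11837332085670435, -7790341, -186716,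
    -5718⟩, ⟨2920608880795156, 958119, 40243, 421⟩, ⟨-196461355114876770878011626,
    -117163639959198143, -3278634714913377, -90857395104636⟩, ⟨12479994008180634370831285,
    -10169596990678413, 1119217897334402, -20374305177319⟩, 1141583, 2457945865298940275,
    -2560963530, 808837223524036342, 2739509837470875941372766, 1515541214791⟩,
    ⟨⟨4774530120410170, 3257225, 107337, 2856⟩, ⟨-5123164055308100, 5724714, 259054, -5448⟩,
    ⟨4494678141643042, 1275058, 23803, 2578⟩, ⟨-8666217727761146363620211106, 7356852708658865219,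
    113847658764778449, -1830240605017996⟩, ⟨-4515942870984367177063502864, -3108884475224849973,
    -63245375465678465, -1697054142836542⟩, 314401163731, 2288166186789866854885, 1295510229346,
    78353954866062499258, 1351605721439578112200500, 258764493682243⟩, ⟨⟨1583465589947123,
    -1694188, -5807, -3064⟩, ⟨1441436087199673, 564239, 34884, -2756⟩, ⟨905784498452487, 2369582,
    -64113, 1221⟩, ⟨-3169690941310470212509603175, 728460850791287820, 7576968118394197,
    366123789649868⟩, ⟨3497842186423667739151433880, 110904169439463644, 24570639974563542,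
    -419287827396340⟩, 47, 37876609454641132, 5572763, 31510586, 34421011112202979682, 273633709⟩,
    ⟨⟨5655036540597365, -8737619, -96405, 6591⟩, ⟨5419936374201210, -6277226, 28441, -2930⟩,
    ⟨-4236635773680720, 2905409, 67527, -2057⟩, ⟨-1861748052087582689942081635,
    276300012597736877, -49685631092978133, 740257782374207⟩, ⟨-4197739549908445200667760236,
    1006646880836127200, 69579917270881758, -760294499382923⟩, 71022240066566,
    2183136621891037263367, -1974239525951, 133904833908134, 147055403489559877923684,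
    -2422728762487⟩]

theorem ok_cP5 : cP5.ok = true := by decide +kernel

end Pool.Agent.Helper69.BQ.Data
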