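import Pool.Agent.Helper69.BQ.Cert

set_option linter.style.longLine false

/-! Certificate for the module `R11`. -/

namespace Pool.Agent.Helper69.BQ.Data

def cR11 : Cert where
P12 := [73, 89, 577]
P13 := [43, 449, 509]
P23 := [3, 1381, 5003]
chi := [1136, 1840, 1580, 863, 932, 1858, 1227, 1274, 703]
k1 := [1140, 1840, 1596, 895, 996, 1986, 256, 512, 1024]
k2 := [1136, 1840, 1580, 32, 64, 128, 1227, 1274, 703]
k3 := [4, 8, 16, 895, 932, 1986, 1483, 1786, 1727]
kp := [(4, 4), (1140, 1136), (8, 8), (1840, 1840), (16, 16), (1596, 1580), (0, 32), (0, 863), (0,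
    64), (64, 932), (0, 128), (0, 1858), (256, 0), (1227, 256), (512, 0), (1274, 512), (1024, 0),
    (703, 1024)]
r1 := 78
r2 := 1050
r3 := 706
F1 := (16, 2)
F2 := (4, 6)
F3 := (32, 34)
K1 := [0, 242, 180, 0, 450, 49, 465, 64, 128, 256]
K2 := [0, 0, 161, 501, 8, 16, 32, 338, 321, 492]
K3 := [0, 1, 2, 4, 0, 203, 415, 166, 296, 250]
m := 3
n := 3
A := [1, 2, 4]
B := [2, 4, 3]
psi := [888, 1652, 1010]
L1 := [0, 0, 0]
L2 := [3, 4, 1]
f := [56, 4, 44]
c1 := [196, 75, 158]
c2 := [5, 1544, 1308]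
ra := [2, 9, 10]
rb := [1, 50, 38]
S1 := [391, 129, 226]
S2 := [351, 320, 478]
S3 := [323, 284, 222]
TA := [71201, 6729, 103970]
TB := [0, 0, 0]
gens := [⟨⟨-12427511128, -12883, 4562, -2178⟩, ⟨15404076011, -4355, -2496, 2522⟩, ⟨-14534414754,
    -931, 273, 1531⟩, ⟨18697197479928577, -16023476086, -6748899013, 10148687036⟩,
    ⟨401982424072213269, -13731391668, 23432343493, -50439750015⟩, 16683493, 163482715751510,
    32338775, 73, 438831900335, 30115⟩, ⟨⟨4386175077, -1463, -1445, 825⟩, ⟨22157791122, 3526,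
    -1781, -2416⟩, ⟨11650701015, -674, -305, 553⟩, ⟨232893778391461708, 38794023026, -5360600573,
    -14629306173⟩, ⟨-23240426706023926, -2901997521, 293783875, -2703566725⟩, 79922,
    2433657148527, -369089, 614913727, 88415370236695, 9750006⟩, ⟨⟨-58330692610, 7906, 1766,
    -1977⟩, ⟨-4525397432, -644, -30, -4⟩, ⟨55893973, -1191, -9, -382⟩, ⟨-3411125937528408,
    -1007134080, 735284147, 1413565849⟩, ⟨-6139826268199594, -3297326549, -34025201066,
    24353163505⟩, 3816246842, 3194563058327411, -512847055, 56265273921, 5117270397841029,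
    345784372⟩]

theorem ok_cR11 : cR11.ok = true := by decide +kernel

end Pool.Agent.Helper69.BQ.Data
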