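import Pool.Agent.Helper69.BQ.Cert

set_option linter.style.longLine false

/-! Certificate for the module `R19`. -/

namespace Pool.Agent.Helper69.BQ.Data

def cR19 : Cert where
P12 := [67, 137, 383, 467]
P13 := [73, 149, 197, 4957]
P23 := [13, 4049, 113359, 139409]
chi := [1819, 9348, 13569, 6487, 16160, 9994, 14070, 12742, 2526, 5216, 2885, 984]
k1 := [1823, 9348, 13569, 6519, 16224, 10122, 14070, 12742, 1024, 2048, 4096, 8192]
k2 := [1823, 9356, 13569, 6487, 64, 128, 256, 512, 3550, 7264, 6981, 984]
k3 := [4, 8, 16, 32, 16160, 10122, 14326, 12742, 3550, 7264, 6981, 984]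
kp := [(4, 4), (1819, 1819), (8, 8), (9356, 9348), (16, 16), (13569, 13569), (32, 32), (6519,
    6487), (0, 64), (64, 16160), (0, 128), (0, 9994), (0, 256), (256, 14070), (0, 512), (0,
    12742), (1024, 0), (2526, 0), (2048, 0), (5216, 0), (4096, 0), (2885, 0), (8192, 0), (984, 0)]
r1 := 344
r2 := 10298
r3 := 3842
F1 := (4, 12)
F2 := (4, 6)
F3 := (64, 66)
K1 := [1909, 0, 0, 1086, 681, 2798, 2306, 2073, 3918, 256, 512, 1024, 2048]
K2 := [0, 0, 3192, 1160, 3825, 16, 32, 64, 128, 334, 2254, 1377, 3348]
K3 := [0, 1, 2, 4, 8, 0, 2456, 2808, 2918, 2986, 2509, 111, 910]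
m := 4
n := 4
A := [1, 2, 4, 8]
B := [2, 4, 8, 3]
psi := [6732, 8810, 6278, 8834]
L1 := [0, 0, 0, 0]
L2 := [3, 4, 8, 1]
f := [56, 32, 198, 30]
c1 := [668, 644, 414, 31]
c2 := [15391, 12294, 31, 5149]
ra := [10, 10, 8, 1]
rb := [5, 38, 1, 21]
S1 := [928, 2172, 2167, 2361]
S2 := [327, 3853, 3471, 3508]
S3 := [711, 2274, 59, 368]
TA := [72130, 780763, 781396, 4768379]
TB := [0, 0, 0, 0]
gens := [⟨⟨-29418780618925775, -8119670, -7521, -9316⟩, ⟨83212493973167114, -40480036, -94170,
    42416⟩, ⟨3224254836775712, 8097134, 20817, 13140⟩, ⟨-3898591522776243965339446139,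
    6110699499737341024, 25746513891828221, 5760074863873520⟩, ⟨-13656886504795964350650417641,
    -3290490196371723491, -8304419424469903, -10273712291198142⟩, 2596565791301,
    36155023021684671153218, 10376991323519, 5848736915699022422558, 1187556787048108007788289110,
    213926481463059⟩, ⟨⟨60409786930522307, 11158568, 10350, 24100⟩, ⟨46588648732495828, 7454394,
    -14404, -6552⟩, ⟨1208866298729725, 3771427, 18130, 12056⟩, ⟨-17594585264336627362327664475,
    -4847205240663702508, 11470159970958788, 16938792682149166⟩, ⟨-39963223010505202840905804312,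
    -9010528357254477761, -16376025105970034, -23074289483605303⟩, 49485731,
    208007822742943934488, 53534915887, 2117637487354, 12476957678106137796448, -12733237575⟩,
    ⟨⟨62710664462907435, -21822309, 54001, -24375⟩, ⟨-26549990321748771, -25672531, -26403,
    -20403⟩, ⟨-50340189772735142, 10557078, -23648, -1595⟩, ⟨54386122333310837800738802916,
    16380142180213490087, 56359884329018856, 22420900416670312⟩, ⟨-37654946241522522317892133085,
    14087871598213261034, -58142244455187604, 21307807610232975⟩, 3080362526,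
    250019936766228298735, -95746657917, 104942, 1843308982492550226, 172315⟩,
    ⟨⟨-13988537921076585, 8460085, 259, 47985⟩, ⟨36808457883426377, 14337625, -29748, 57321⟩,
    ⟨-73966158711825716, 1470673, -41422, -17302⟩, ⟨-99042376747144412508011918064,
    -14596256087514920323, -27075558718927408, -29257313734247048⟩,
    ⟨104406501095809801514364609990, 20449547551645548181, 11848861018439027, 3224728213437583⟩,
    7031114, 137609006254815482603, 55507376865, 5180760337519, 109984639263222663167085,
    117535928776⟩]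

theorem ok_cR19 : cR19.ok = true := by decide +kernel

end Pool.Agent.Helper69.BQ.Data
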