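import Pool.Agent.Helper69.BQ.Cert

set_option linter.style.longLine false

/-! Certificate for the module `R21`. -/

namespace Pool.Agent.Helper69.BQ.Data

def cR21 : Cert where
P12 := [37, 97, 283, 739]
P13 := [13, 911, 1291, 26339]
P23 := [23, 1759, 3727, 25981]
chi := [3802, 16356, 4647, 15691, 8238, 12861, 9371, 1327, 10397, 5021, 1801, 1514]
k1 := [3806, 16356, 4647, 15691, 8302, 12861, 9371, 1839, 1024, 2048, 4096, 8192]
k2 := [3806, 16356, 4663, 15723, 64, 128, 256, 512, 10397, 7069, 5897, 1514]
k3 := [4, 8, 16, 32, 8238, 12861, 9627, 1327, 10397, 7069, 1801, 9706]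
kp := [(4, 4), (3802, 3802), (8, 8), (16356, 16356), (16, 16), (4663, 4647), (32, 32), (15723,
    15691), (0, 64), (64, 8238), (0, 128), (0, 12861), (0, 256), (256, 9371), (0, 512), (512,
    1327), (1024, 0), (10397, 0), (2048, 0), (5021, 0), (4096, 0), (1801, 4096), (8192, 0), (1514,
    8192)]
r1 := 594
r2 := 3124
r3 := 6464
F1 := (4, 2)
F2 := (2, 6)
F3 := (2, 66)
K1 := [0, 0, 1621, 3697, 2038, 2483, 603, 977, 205, 256, 512, 1024, 2048]
K2 := [0, 0, 1681, 3124, 2342, 16, 32, 64, 128, 1991, 3539, 941, 109]
K3 := [0, 1, 2, 4, 8, 0, 214, 2915, 1161, 932, 2438, 3313, 27]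
m := 4
n := 4
A := [1, 2, 4, 8]
B := [2, 4, 8, 5]
psi := [13722, 862, 4188, 11528]
L1 := [0, 0, 0, 0]
L2 := [2, 5, 8, 1]
f := [52, 230, 18, 24]
c1 := [52, 794, 19, 24]
c2 := [9270, 12312, 12307, 15384]
ra := [0, 2, 1, 0]
rb := [46, 20, 21, 4]
S1 := [1198, 651, 1431, 3716]
S2 := [3778, 2677, 2328, 3240]
S3 := [1277, 4077, 3318, 344]
TA := [519536, 3262304, 2245965, 1821700]
TB := [0, 0, 0, 0]
gens := [⟨⟨33424273583604965, 854256, -420285, -17100⟩, ⟨22546576345567857, -1224805, 183742,
    -14164⟩, ⟨-5523406724830341, 186442, 131210, -7673⟩, ⟨4671833079910891377665186935,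
    -286699754407913562, 105134418999208916, -9133215273196150⟩, ⟨-4246124296593487574201657410,
    -598272038998685776, 47756259029514797, 11927191708169487⟩, 7738069, 1678848288372149772,
    -804038545, 9247967451694, 89247165636984557690850, -1180480617097⟩, ⟨⟨15221425955553328,
    408534, -63823, -5209⟩, ⟨41630818166307974, -1925700, 60237, -13704⟩, ⟨-6769744557251744,
    1017483, -87613, -5575⟩, ⟨4481021649766542601945701206, -107361405274861182,
    163672333980119847, -16396472212555169⟩, ⟨-1472337207291231506900394468, -90129821293473472,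
    26420902598710087, 5730634528992071⟩, 1866868337398, 8192214103130041678833, 1108181089497,
    2658112914337, 5517022073182752797637, -280713393699⟩, ⟨⟨12018735453247900, -607542, -241604,
    22087⟩, ⟨-18454035155830990, 1224540, -264135, 55872⟩, ⟨16552717404551577, -1369084, -26081,
    -1665⟩, ⟨-5885988820666331761901498787, 20325827704117617, -24407101129916049,
    1727044844089505⟩, ⟨2044042912372074148543860853, -98556287127952774, -15123012133243872,
    1513620069022538⟩, 566, 337943374840920447, -21182577, 54806451842, 199846791266058176058,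
    18960918339⟩, ⟨⟨-13019631150148603, 559948, 5547, -2856⟩, ⟨-54795030608571066, 1257656,
    707346, -24336⟩, ⟨-18466773996882622, 898624, 225879, -12816⟩, ⟨6891803816186478862988028711,
    -1225649736533793908, -102837726796846327, 24686817004400126⟩, ⟨-1019114568728930249697710920,
    -503940972679452, 49263433869920809, -5709448419348445⟩, 27451, 2070653528673950861,
    -96037988, 107539274175332009, 2572070912706325851253527, 11220968277117⟩]

theorem ok_cR21 : cR21.ok = true := by decide +kernel

end Pool.Agent.Helper69.BQ.Data
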