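import Pool.Agent.Helper69.BQ.St.Sound
import Pool.Agent.Helper69.BQ.Data.P1
import Pool.Agent.Helper69.BQ.Data.I1
import Pool.Agent.Helper69.BQ.Data.I2
import Pool.Agent.Helper69.BQ.Data.I3
import Pool.Agent.Helper69.BQ.Data.I4
import Pool.Agent.Helper69.BQ.Data.I5
import Pool.Agent.Helper69.BQ.Data.P2
import Pool.Agent.Helper69.BQ.Data.P3
import Pool.Agent.Helper69.BQ.Data.P4
import Pool.Agent.Helper69.BQ.Data.P5
import Pool.Agent.Helper69.BQ.Data.P6
import Pool.Agent.Helper69.BQ.Data.P7
import Pool.Agent.Helper69.BQ.Data.P8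
import Pool.Agent.Helper69.BQ.Data.N1
import Pool.Agent.Helper69.BQ.Data.N2
import Pool.Agent.Helper69.BQ.Data.N3
import Pool.Agent.Helper69.BQ.Data.N4
import Pool.Agent.Helper69.BQ.Data.N5
import Pool.Agent.Helper69.BQ.Data.N6
import Pool.Agent.Helper69.BQ.Data.R7
import Pool.Agent.Helper69.BQ.Data.R11
import Pool.Agent.Helper69.BQ.Data.R19
import Pool.Agent.Helper69.BQ.Data.R21
import Pool.Agent.Helper69.BQ.Data.R37

/-!
# All listed modules arise (project BQ)
-/

namespace Pool.Agent.Helper69.BQ

open Cert Data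

/-- The trivial module. -/
theorem arises_P1 : Arises (kroRep (m := 0) (n := 1) 0 0) := by
  have h : Arises (kroRep (mat 0 1 cP1.A) (mat 0 1 cP1.B)) := cP1.sound ok_cP1
  have e1 : mat 0 1 cP1.A = 0 := by ext i j; exact j.elim0
  have e2 : mat 0 1 cP1.B = 0 := by ext i j; exact j.elim0
  rwa [e1, e2] at h

theorem arises_I1 : Arises (kroRep (m := 2) (n := 1)
    (Matrix.of fun i j => if j = i.castSucc then 1 else 0)
    (Matrix.of fun i j => if j = i.succ then 1 else 0)) := by
  have h : Arises (kroRep (mat 2 1 cI1.A) (mat 2 1 cI1.B)) := cI1.sound ok_cI1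
  have e1 : mat 2 1 cI1.A = (Matrix.of fun i j => if j = i.castSucc then 1 else 0) := by
    decide +kernel
  have e2 : mat 2 1 cI1.B = (Matrix.of fun i j => if j = i.succ then 1 else 0) := by
    decide +kernel
  rwa [e1, e2] at h

theorem arises_I2 : Arises (kroRep (m := 3) (n := 2)
    (Matrix.of fun i j => if j = i.castSucc then 1 else 0)
    (Matrix.of fun i j => if j = i.succ then 1 else 0)) := by
  have h : Arises (kroRep (mat 3 2 cI2.A) (mat 3 2 cI2.B)) := cI2.sound ok_cI2
  have e1 : mat 3 2 cI2.A = (Matrix.of fun i j => if j = i.castSucc then 1 else 0) := by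
    decide +kernel
  have e2 : mat 3 2 cI2.B = (Matrix.of fun i j => if j = i.succ then 1 else 0) := by
    decide +kernel
  rwa [e1, e2] at h

theorem arises_I3 : Arises (kroRep (m := 4) (n := 3)
    (Matrix.of fun i j => if j = i.castSucc then 1 else 0)
    (Matrix.of fun i j => if j = i.succ then 1 else 0)) := by
  have h : Arises (kroRep (mat 4 3 cI3.A) (mat 4 3 cI3.B)) := cI3.sound ok_cI3
  have e1 : mat 4 3 cI3.A = (Matrix.of fun i j => if j = i.castSucc then 1 else 0) := by
    decide +kernel
  have e2 : mat 4 3 cI3.B = (Matrix.of fun i j => if j = i.succ then 1 else 0) := by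
    decide +kernel
  rwa [e1, e2] at h

theorem arises_I4 : Arises (kroRep (m := 5) (n := 4)
    (Matrix.of fun i j => if j = i.castSucc then 1 else 0)
    (Matrix.of fun i j => if j = i.succ then 1 else 0)) := by
  have h : Arises (kroRep (mat 5 4 cI4.A) (mat 5 4 cI4.B)) := cI4.sound ok_cI4
  have e1 : mat 5 4 cI4.A = (Matrix.of fun i j => if j = i.castSucc then 1 else 0) := by
    decide +kernel
  have e2 : mat 5 4 cI4.B = (Matrix.of fun i j => if j = i.succ then 1 else 0) := by
    decide +kernel
  rwa [e1, e2] at h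

theorem arises_I5 : Arises (kroRep (m := 6) (n := 5)
    (Matrix.of fun i j => if j = i.castSucc then 1 else 0)
    (Matrix.of fun i j => if j = i.succ then 1 else 0)) := by
  have h : Arises (kroRep (mat 6 5 cI5.A) (mat 6 5 cI5.B)) := cI5.sound ok_cI5
  have e1 : mat 6 5 cI5.A = (Matrix.of fun i j => if j = i.castSucc then 1 else 0) := by
    decide +kernel
  have e2 : mat 6 5 cI5.B = (Matrix.of fun i j => if j = i.succ then 1 else 0) := by
    decide +kernel
  rwa [e1, e2] at h

theorem arises_P2 : Arises (kroRep (m := 1) (n := 2)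
    (Matrix.of fun i j => if i = j.castSucc then 1 else 0)
    (Matrix.of fun i j => if i = j.succ then 1 else 0)) := by
  have h : Arises (kroRep (mat 1 2 cP2.A) (mat 1 2 cP2.B)) := cP2.sound ok_cP2
  have e1 : mat 1 2 cP2.A = (Matrix.of fun i j => if i = j.castSucc then 1 else 0) := by
    decide +kernel
  have e2 : mat 1 2 cP2.B = (Matrix.of fun i j => if i = j.succ then 1 else 0) := by
    decide +kernel
  rwa [e1, e2] at h

theorem arises_P3 : Arises (kroRep (m := 2) (n := 3)
    (Matrix.of fun i j => if i = j.castSucc then 1 else 0)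
    (Matrix.of fun i j => if i = j.succ then 1 else 0)) := by
  have h : Arises (kroRep (mat 2 3 cP3.A) (mat 2 3 cP3.B)) := cP3.sound ok_cP3
  have e1 : mat 2 3 cP3.A = (Matrix.of fun i j => if i = j.castSucc then 1 else 0) := by
    decide +kernel
  have e2 : mat 2 3 cP3.B = (Matrix.of fun i j => if i = j.succ then 1 else 0) := by
    decide +kernel
  rwa [e1, e2] at h

theorem arises_P4 : Arises (kroRep (m := 3) (n := 4)
    (Matrix.of fun i j => if i = j.castSucc then 1 else 0)
    (Matrix.of fun i j => if i = j.succ then 1 else 0)) := by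
  have h : Arises (kroRep (mat 3 4 cP4.A) (mat 3 4 cP4.B)) := cP4.sound ok_cP4
  have e1 : mat 3 4 cP4.A = (Matrix.of fun i j => if i = j.castSucc then 1 else 0) := by
    decide +kernel
  have e2 : mat 3 4 cP4.B = (Matrix.of fun i j => if i = j.succ then 1 else 0) := by
    decide +kernel
  rwa [e1, e2] at h

theorem arises_P5 : Arises (kroRep (m := 4) (n := 5)
    (Matrix.of fun i j => if i = j.castSucc then 1 else 0)
    (Matrix.of fun i j => if i = j.succ then 1 else 0)) := by
  have h : Arises (kroRep (mat 4 5 cP5.A) (mat 4 5 cP5.B)) := cP5.sound ok_cP5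
  have e1 : mat 4 5 cP5.A = (Matrix.of fun i j => if i = j.castSucc then 1 else 0) := by
    decide +kernel
  have e2 : mat 4 5 cP5.B = (Matrix.of fun i j => if i = j.succ then 1 else 0) := by
    decide +kernel
  rwa [e1, e2] at h

theorem arises_P6 : Arises (kroRep (m := 5) (n := 6)
    (Matrix.of fun i j => if i = j.castSucc then 1 else 0)
    (Matrix.of fun i j => if i = j.succ then 1 else 0)) := by
  have h : Arises (kroRep (mat 5 6 cP6.A) (mat 5 6 cP6.B)) := cP6.sound ok_cP6
  have e1 : mat 5 6 cP6.A = (Matrix.of fun i j => if i = j.castSucc then 1 else 0) := by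
    decide +kernel
  have e2 : mat 5 6 cP6.B = (Matrix.of fun i j => if i = j.succ then 1 else 0) := by
    decide +kernel
  rwa [e1, e2] at h

theorem arises_P7 : Arises (kroRep (m := 6) (n := 7)
    (Matrix.of fun i j => if i = j.castSucc then 1 else 0)
    (Matrix.of fun i j => if i = j.succ then 1 else 0)) := by
  have h : Arises (kroRep (mat 6 7 cP7.A) (mat 6 7 cP7.B)) := cP7.sound ok_cP7
  have e1 : mat 6 7 cP7.A = (Matrix.of fun i j => if i = j.castSucc then 1 else 0) := by
    decide +kernel
  have e2 : mat 6 7 cP7.B = (Matrix.of fun i j => if i = j.succ then 1 else 0) := by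
    decide +kernel
  rwa [e1, e2] at h

theorem arises_P8 : Arises (kroRep (m := 7) (n := 8)
    (Matrix.of fun i j => if i = j.castSucc then 1 else 0)
    (Matrix.of fun i j => if i = j.succ then 1 else 0)) := by
  have h : Arises (kroRep (mat 7 8 cP8.A) (mat 7 8 cP8.B)) := cP8.sound ok_cP8
  have e1 : mat 7 8 cP8.A = (Matrix.of fun i j => if i = j.castSucc then 1 else 0) := by
    decide +kernel
  have e2 : mat 7 8 cP8.B = (Matrix.of fun i j => if i = j.succ then 1 else 0) := by
    decide +kernel
  rwa [e1, e2] at h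

theorem arises_N1 : Arises (kroRep (m := 1) (n := 1)
    1
    (companion 0)) := by
  have h : Arises (kroRep (mat 1 1 cN1.A) (mat 1 1 cN1.B)) := cN1.sound ok_cN1
  have e1 : mat 1 1 cN1.A = 1 := by
    decide +kernel
  have e2 : mat 1 1 cN1.B = (companion 0) := by
    decide +kernel
  rwa [e1, e2] at h

theorem arises_N2 : Arises (kroRep (m := 2) (n := 2)
    1
    (companion 0)) := by
  have h : Arises (kroRep (mat 2 2 cN2.A) (mat 2 2 cN2.B)) := cN2.sound ok_cN2
  have e1 : mat 2 2 cN2.A = 1 := by
    decide +kernel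
  have e2 : mat 2 2 cN2.B = (companion 0) := by
    decide +kernel
  rwa [e1, e2] at h

theorem arises_N3 : Arises (kroRep (m := 3) (n := 3)
    1
    (companion 0)) := by
  have h : Arises (kroRep (mat 3 3 cN3.A) (mat 3 3 cN3.B)) := cN3.sound ok_cN3
  have e1 : mat 3 3 cN3.A = 1 := by
    decide +kernel
  have e2 : mat 3 3 cN3.B = (companion 0) := by
    decide +kernel
  rwa [e1, e2] at h

theorem arises_N4 : Arises (kroRep (m := 4) (n := 4)
    1
    (companion 0)) := by
  have h : Arises (kroRep (mat 4 4 cN4.A) (mat 4 4 cN4.B)) := cN4.sound ok_cN4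
  have e1 : mat 4 4 cN4.A = 1 := by
    decide +kernel
  have e2 : mat 4 4 cN4.B = (companion 0) := by
    decide +kernel
  rwa [e1, e2] at h

theorem arises_N5 : Arises (kroRep (m := 5) (n := 5)
    1
    (companion 0)) := by
  have h : Arises (kroRep (mat 5 5 cN5.A) (mat 5 5 cN5.B)) := cN5.sound ok_cN5
  have e1 : mat 5 5 cN5.A = 1 := by
    decide +kernel
  have e2 : mat 5 5 cN5.B = (companion 0) := by
    decide +kernel
  rwa [e1, e2] at h

theorem arises_N6 : Arises (kroRep (m := 6) (n := 6)
    1
    (companion 0)) := by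
  have h : Arises (kroRep (mat 6 6 cN6.A) (mat 6 6 cN6.B)) := cN6.sound ok_cN6
  have e1 : mat 6 6 cN6.A = 1 := by
    decide +kernel
  have e2 : mat 6 6 cN6.B = (companion 0) := by
    decide +kernel
  rwa [e1, e2] at h

theorem arises_R7 : Arises (kroRep (m := 2) (n := 2)
    1
    (companion ![1, 1])) := by
  have h : Arises (kroRep (mat 2 2 cR7.A) (mat 2 2 cR7.B)) := cR7.sound ok_cR7
  have e1 : mat 2 2 cR7.A = 1 := by
    decide +kernel
  have e2 : mat 2 2 cR7.B = (companion ![1, 1]) := by
    decide +kernel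
  rwa [e1, e2] at h

theorem arises_R11 : Arises (kroRep (m := 3) (n := 3)
    1
    (companion ![1, 1, 0])) := by
  have h : Arises (kroRep (mat 3 3 cR11.A) (mat 3 3 cR11.B)) := cR11.sound ok_cR11
  have e1 : mat 3 3 cR11.A = 1 := by
    decide +kernel
  have e2 : mat 3 3 cR11.B = (companion ![1, 1, 0]) := by
    decide +kernel
  rwa [e1, e2] at h

theorem arises_R19 : Arises (kroRep (m := 4) (n := 4)
    1
    (companion ![1, 1, 0, 0])) := by
  have h : Arises (kroRep (mat 4 4 cR19.A) (mat 4 4 cR19.B)) := cR19.sound ok_cR19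
  have e1 : mat 4 4 cR19.A = 1 := by
    decide +kernel
  have e2 : mat 4 4 cR19.B = (companion ![1, 1, 0, 0]) := by
    decide +kernel
  rwa [e1, e2] at h

theorem arises_R21 : Arises (kroRep (m := 4) (n := 4)
    1
    (companion ![1, 0, 1, 0])) := by
  have h : Arises (kroRep (mat 4 4 cR21.A) (mat 4 4 cR21.B)) := cR21.sound ok_cR21
  have e1 : mat 4 4 cR21.A = 1 := by
    decide +kernel
  have e2 : mat 4 4 cR21.B = (companion ![1, 0, 1, 0]) := by
    decide +kernel
  rwa [e1, e2] at h

theorem arises_R37 : Arises (kroRep (m := 5) (n := 5)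
    1
    (companion ![1, 0, 1, 0, 0])) := by
  have h : Arises (kroRep (mat 5 5 cR37.A) (mat 5 5 cR37.B)) := cR37.sound ok_cR37
  have e1 : mat 5 5 cR37.A = 1 := by
    decide +kernel
  have e2 : mat 5 5 cR37.B = (companion ![1, 0, 1, 0, 0]) := by
    decide +kernel
  rwa [e1, e2] at h

end Pool.Agent.Helper69.BQ
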